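import Mathlib

set_option autoImplicit false

namespace Pool.Agent.Results.MP_25f285_al.Plateau

open Filter

noncomputable def ψ (k t : ℕ) : ℕ := max (2 * k * (k + 1) * (k + 2)) (t + ⌈(t : ℚ) / (k + 1)⌉₊)

noncomputable def ℓ (t : ℕ) : ℕ := sInf (Set.range fun k => ψ k t)

theorem ℓ_le (k t : ℕ) : ℓ t ≤ ψ k t := Nat.sInf_le ⟨k, rfl⟩

theorem ℓ_eq (t : ℕ) : ∃ k, ψ k t = ℓ t := Nat.sInf_mem (Set.range_nonempty fun k => ψ k t)

theorem lo (t : ℕ) : t ≤ ℓ t := by
  obtain ⟨k, h⟩ := ℓ_eq t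
  exact h ▸ le_max_of_le_right (Nat.le_add_right _ _)

theorem hi (t : ℕ) : ℓ t ≤ 2 * t := (ℓ_le 0 t).trans (by simp [ψ, two_mul])

theorem sub' {i j s t u : ℕ} (hij : i ≤ j) (h : u ≤ s + t) : ψ j u ≤ ψ i s + ψ j t := by
  refine max_le (le_add_left (le_max_left _ _)) (le_trans ?_
    (add_le_add (le_max_right _ _) (le_max_right _ _)))
  have h1 : (u : ℚ) / (j + 1) ≤ s / (i + 1) + t / (j + 1) := by
    have : (s : ℚ) / (j + 1) ≤ s / (i + 1) := by gcongr
    have h2 : (u : ℚ) / (j + 1) ≤ (s + t) / (j + 1) := by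
      gcongr
      exact_mod_cast h
    rw [add_div] at h2
    linarith
  have := (Nat.ceil_mono h1).trans (Nat.ceil_add_le _ _)
  omega

theorem sub {s t u : ℕ} (h : u ≤ s + t) : ℓ u ≤ ℓ s + ℓ t := by
  obtain ⟨i, hi⟩ := ℓ_eq s
  obtain ⟨j, hj⟩ := ℓ_eq t
  rw [← hi, ← hj]
  rcases le_total i j with hij | hij
  · exact (ℓ_le j u).trans (sub' hij h)
  · exact (ℓ_le i u).trans ((sub' hij (add_comm s t ▸ h)).trans_eq (add_comm _ _))

theorem plateau {k t : ℕ} (h1 : 2 * k * k * (k + 2) ≤ t) (h2 : t ≤ 2 * k * (k + 1) * (k + 1)) :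
    ℓ t = 2 * k * (k + 1) * (k + 2) := by
  refine le_antisymm ((ℓ_le k t).trans (max_le le_rfl ?_)) ?_
  · have : ⌈(t : ℚ) / (k + 1)⌉₊ ≤ 2 * k * (k + 1) := Nat.ceil_le.2 (by
      rw [div_le_iff₀ (by positivity)]
      exact_mod_cast h2)
    nlinarith
  · obtain ⟨j, hj⟩ := ℓ_eq t
    rw [← hj]
    rcases le_or_gt k j with h | h
    · exact le_max_of_le_left (by gcongr)
    · have : 2 * k * (k + 2) ≤ ⌈(t : ℚ) / (j + 1)⌉₊ := by
        rw [← Nat.cast_le (α := ℚ)]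
        refine le_trans ?_ (Nat.le_ceil _)
        rw [le_div_iff₀ (by positivity)]
        have : 2 * k * (k + 2) * (j + 1) ≤ t := (Nat.mul_le_mul_left _ h).trans (by nlinarith)
        exact_mod_cast this
      exact le_max_of_le_right (by nlinarith)

theorem result : ∃ d : ℤ → ℤ → ℤ,
    (∀ x y, d x y = 0 ↔ x = y) ∧ (∀ x y, d x y = d y x) ∧ (∀ x y z, d x z ≤ d x y + d y z) ∧
    (∀ g x y, d (g + x) (g + y) = d x y) ∧ (∀ x r, {y | d x y ≤ r}.Finite) ∧
    (∀ x y, |x - y| ≤ d x y ∧ d x y ≤ 2 * |x - y|) ∧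
    ∃ x : ℕ → ℤ, Tendsto x atTop cofinite ∧
      ∀ y, Tendsto (fun n => ((d (x n) y - d (x n) 0 : ℤ) : ℝ)) atTop (nhds 0) := by
  have b : ∀ x y : ℤ, |x - y| ≤ ℓ (x - y).natAbs ∧ (ℓ (x - y).natAbs : ℤ) ≤ 2 * |x - y| := by
    intro x y
    have := lo (x - y).natAbs
    have := hi (x - y).natAbs
    rw [Int.abs_eq_natAbs]
    omega
  refine ⟨fun x y => ℓ (x - y).natAbs, fun x y => ?_, fun x y => ?_, fun x y z => ?_,
    fun g x y => by simp, fun x r => (Set.finite_Icc (x - r) (x + r)).subset fun y hy => ?_, b,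
    fun k => (2 * k * k * (k + 2) + k : ℕ), ?_, fun y => ?_⟩
  · have := lo (x - y).natAbs
    have := hi (x - y).natAbs
    simp only
    omega
  · simp only
    rw [← Int.natAbs_neg, neg_sub]
  · simp only
    exact_mod_cast sub (s := (x - y).natAbs) (t := (y - z).natAbs) (u := (x - z).natAbs) (by omega)
  · have := abs_le.1 ((b x y).1.trans hy)
    exact ⟨by omega, by omega⟩
  · rw [← Nat.cofinite_eq_atTop]
    refine Function.Injective.tendsto_cofinite (Nat.cast_injective.comp (StrictMono.injective ?_))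
    exact strictMono_nat_of_lt_succ fun n => by nlinarith
  · refine tendsto_const_nhds.congr' (eventually_atTop.2 ⟨y.natAbs, fun k hk => ?_⟩)
    have e : 2 * k * (k + 1) * (k + 1) = 2 * k * k * (k + 2) + 2 * k := by ring
    simp only
    rw [plateau (k := k) (by omega) (by omega), plateau (k := k) (by omega) (by omega)]
    simp

end Pool.Agent.Results.MP_25f285_al.Plateau
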